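import Pool.Agent.H.MP_768068_al.B

namespace Pool.Agent.Results.MP_768068_al.NotNilpotent

open Pool.Agent.H.MP_768068_al

theorem result :
    (∃ (A : Type) (_ : Ring A) (_ : Algebra ℚ A), Counter ℚ A) ∧
    (∃ (A : Type) (_ : NonUnitalNonAssocRing A) (_ : Module ℚ A) (_ : IsScalarTower ℚ A A)
      (_ : SMulCommClass ℚ A A), (∀ a b : A, (a * a) * b = a * (a * b)) ∧
        (∀ a b : A, (b * a) * a = b * (a * a)) ∧ Counter ℚ A) ∧
    (∃ (J : Type) (_ : NonUnitalNonAssocRing J) (_ : Module ℚ J) (_ : IsScalarTower ℚ J J)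
      (_ : SMulCommClass ℚ J J), (∀ a b : J, a * b = b * a) ∧
        (∀ a b : J, (a * a * b) * a = (a * a) * (b * a)) ∧ Counter ℚ J) :=
  ⟨⟨Alg, inferInstance, inferInstance, counter_assoc⟩,
    ⟨Alg, inferInstance, inferInstance, inferInstance, inferInstance,
      fun a b => mul_assoc a a b, fun a b => mul_assoc b a a, counter_assoc⟩,
    ⟨Jor, inferInstance, inferInstance, inferInstance, inferInstance, jor_comm, jor_id,
      counter_jor⟩⟩

end Pool.Agent.Results.MP_768068_al.NotNilpotent
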